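import Pool.Agent.H44.Kahn.Main

/-!
# The Alon-Tarsi number, defined by Latin squares
-/

set_option autoImplicit false

open Matrix

namespace Pool.Agent.H44.Kahn

/-- The sign of a map: the sign of the permutation if it is bijective, and `0` otherwise. -/
noncomputable def sgn {n : ℕ} (f : Fin n → Fin n) : ℤ :=
  if h : Function.Bijective f then (Equiv.Perm.sign (Equiv.ofBijective f h) : ℤ) else 0

/-- The sum over all `n × n` arrays with entries in `Fin n` of the product of the signs of the rows
and columns. Only Latin squares contribute: it is the number of even Latin squares minus the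
number of odd Latin squares. -/
noncomputable def alonTarsi (n : ℕ) : ℤ :=
  ∑ c : Fin n → Fin n → Fin n, (∏ i, sgn (c i)) * ∏ j, sgn fun i => c i j

theorem det_oneHot {n : ℕ} (f : Fin n → Fin n) : (oneHot ℤ f).det = sgn f := by
  unfold sgn
  split_ifs with h
  · rw [det_rows, Finset.sum_eq_single (Equiv.ofBijective f h)]
    · have h1 : ∀ j, oneHot ℤ f j (Equiv.ofBijective f h j) = 1 := by
        intro j
        simp [oneHot]
      rw [Finset.prod_congr rfl fun j _ => h1 j]
      simp
    · intro σ _ hσ
      obtain ⟨j, hj⟩ : ∃ j, f j ≠ σ j := by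
        by_contra hcon
        push Not at hcon
        apply hσ
        ext j
        rw [← hcon j]
        rfl
      rw [Finset.prod_eq_zero (Finset.mem_univ j), mul_zero]
      simp [oneHot, hj]
    · intro hcon
      exact absurd (Finset.mem_univ _) hcon
  · have h1 : ¬ Function.Injective f := fun h2 =>
      h ((Fintype.bijective_iff_injective_and_card _).2 ⟨h2, rfl⟩)
    rw [Function.Injective] at h1
    push Not at h1
    obtain ⟨a, b, hab, hne⟩ := h1
    refine Matrix.det_zero_of_row_eq hne ?_
    funext c
    simp [oneHot, hab]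

theorem alonTarsi_eq (n : ℕ) : alonTarsi n = AT n := by
  rw [AT, expn_one]
  simp only [det_oneHot]
  rfl

/-- The condition on `n` and `K` used below. -/
theorem AT_ne_zero_of {K : Type*} [Field K] {n : ℕ}
    (hn : ((alonTarsi n : ℤ) : K) ≠ 0 ∨ ((n + 1).Prime ∧ (CharZero K ∨ CharP K (n + 1)))) :
    ((AT n : ℤ) : K) ≠ 0 := by
  rcases hn with h | ⟨hp, hK⟩
  · rwa [alonTarsi_eq] at h
  · have : Fact (n + 1).Prime := ⟨hp⟩
    have h1 := AT_ne_zero (p := n + 1) hK
    rwa [Nat.add_sub_cancel] at h1

end Pool.Agent.H44.Kahn
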