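import Pool.Agent.H44.Kahn.Parity

/-!
# The Alon-Tarsi number of order `p - 1` is not divisible by `p`
-/

set_option autoImplicit false

open Finset Matrix Equiv

namespace Pool.Agent.H44.Kahn

variable {p : ℕ} [hp : Fact p.Prime]

theorem sum_pow_full : ∑ x : ZMod p, x ^ (p - 1) = -1 := by
  have h1 : ∀ x : ZMod p, x ^ (p - 1) = if x = 0 then 0 else 1 := by
    intro x
    split_ifs with h
    · rw [h, zero_pow]
      have := hp.out.two_le
      omega
    · exact ZMod.pow_card_sub_one_eq_one h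
  rw [Finset.sum_congr rfl fun x _ => h1 x, Finset.sum_ite, Finset.sum_const_zero, zero_add,
    Finset.sum_const, nsmul_eq_mul, mul_one]
  have h2 : (Finset.univ.filter fun x : ZMod p => ¬ x = 0).card = p - 1 := by
    rw [Finset.filter_not, Finset.card_sdiff_of_subset (Finset.filter_subset _ _),
      Finset.card_univ, ZMod.card, Finset.filter_eq' Finset.univ (0 : ZMod p),
      if_pos (Finset.mem_univ _), Finset.card_singleton]
  rw [h2, Nat.cast_sub hp.out.one_le]
  simp

theorem sum_pow_lt {k : ℕ} (hk : k < p - 1) : ∑ x : ZMod p, x ^ k = 0 := by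
  have h := FiniteField.sum_pow_lt_card_sub_one (ZMod p) k (by rw [ZMod.card]; exact hk)
  exact h

theorem powsum {a : ℕ} (ha : a ≤ p - 1) :
    ∑ x : ZMod p, x ^ (a + (p - 2)) = if a = 1 then -1 else 0 := by
  have h2 := hp.out.two_le
  split_ifs with h
  · subst h
    have e : 1 + (p - 2) = p - 1 := by omega
    rw [e]
    exact sum_pow_full
  · rcases Nat.eq_zero_or_pos a with h0 | h0
    · subst h0
      rw [zero_add]
      exact sum_pow_lt (by omega)
    · have ha2 : 2 ≤ a := by omega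
      have e : ∀ x : ZMod p, x ^ (a + (p - 2)) = x ^ (a - 1) := by
        intro x
        by_cases hx : x = 0
        · subst hx
          rw [zero_pow (by omega), zero_pow (by omega)]
        · have e1 : a + (p - 2) = (a - 1) + (p - 1) := by omega
          rw [e1, pow_add, ZMod.pow_card_sub_one_eq_one hx, mul_one]
      rw [Finset.sum_congr rfl fun x _ => e x]
      exact sum_pow_lt (by omega)

/-- A function invariant under a nonzero translation has sum zero. -/
theorem sum_eq_zero_of_periodic {n : ℕ} (f : (Fin n → ZMod p) → ZMod p) {v : Fin n → ZMod p}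
    (hv : v ≠ 0) (hf : ∀ y, f (y + v) = f y) : ∑ y, f y = 0 := by
  obtain ⟨k, hk⟩ : ∃ k, v k ≠ 0 := by
    by_contra hcon
    push Not at hcon
    exact hv (funext hcon)
  have h1 : ∑ y, f y * (y k / v k) = ∑ y : Fin n → ZMod p, f (y + v) * ((y + v) k / v k) :=
    (Equiv.sum_comp (Equiv.addRight v) fun y => f y * (y k / v k)).symm
  have h2 : ∀ y : Fin n → ZMod p, f (y + v) * ((y + v) k / v k) = f y * (y k / v k) + f y := by
    intro y
    rw [hf, Pi.add_apply, add_div, div_self hk]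
    ring
  rw [Finset.sum_congr rfl fun y _ => h2 y, Finset.sum_add_distrib] at h1
  linear_combination -h1

theorem glynn {n : ℕ} (X : Matrix (Fin n) (Fin n) (ZMod p)) :
    ∑ y : Fin n → ZMod p, ∏ i, (X.mulVec y i) ^ (p - 1) = (-1) ^ n * X.det ^ (p - 1) := by
  have h2 := hp.out.two_le
  by_cases hX : X.det = 0
  · rw [hX, zero_pow (by omega), mul_zero]
    obtain ⟨v, hv, hv0⟩ := (Matrix.exists_mulVec_eq_zero_iff (M := X)).2 hX
    refine sum_eq_zero_of_periodic _ hv fun y => ?_
    rw [Matrix.mulVec_add, hv0, add_zero]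
  · rw [ZMod.pow_card_sub_one_eq_one hX, mul_one]
    have hu : IsUnit X.det := isUnit_iff_ne_zero.2 hX
    let e : (Fin n → ZMod p) ≃ (Fin n → ZMod p) :=
      { toFun := fun y => X.mulVec y
        invFun := fun y => X⁻¹.mulVec y
        left_inv := fun y => by
          show X⁻¹.mulVec (X.mulVec y) = y
          rw [Matrix.mulVec_mulVec, Matrix.nonsing_inv_mul X hu, Matrix.one_mulVec]
        right_inv := fun y => by
          show X.mulVec (X⁻¹.mulVec y) = y
          rw [Matrix.mulVec_mulVec, Matrix.mul_nonsing_inv X hu, Matrix.one_mulVec] }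
    have h3 : ∑ y : Fin n → ZMod p, ∏ i, (X.mulVec y i) ^ (p - 1) =
        ∑ y : Fin n → ZMod p, ∏ i, (y i) ^ (p - 1) :=
      Equiv.sum_comp e fun y => ∏ i, (y i) ^ (p - 1)
    have h4 : ∑ y : Fin n → ZMod p, ∏ i, (y i) ^ (p - 1) =
        ∏ _i : Fin n, ∑ x : ZMod p, x ^ (p - 1) := by
      rw [Finset.prod_univ_sum, Fintype.piFinset_univ]
    rw [h3, h4, sum_pow_full, Finset.prod_const, Finset.card_univ, Fintype.card_fin]

/-- The number of the indices `c` with `f c = j`. -/
def cnt {n : ℕ} (f : Fin n → Fin n) (j : Fin n) : ℕ := (Finset.univ.filter fun c => f c = j).card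

theorem prod_comp_cnt {n : ℕ} {R : Type*} [CommRing R] (x : Fin n → R) (f : Fin n → Fin n) :
    ∏ c, x (f c) = ∏ j, x j ^ cnt f j := by
  rw [← Finset.prod_fiberwise (s := Finset.univ) (g := f) (f := fun c => x (f c))]
  refine Finset.prod_congr rfl fun j _ => ?_
  rw [Finset.prod_congr rfl (g := fun _ => x j) (by
    intro c hc
    rw [(Finset.mem_filter.1 hc).2]), Finset.prod_const]
  rfl

theorem cnt_le {n : ℕ} (f : Fin n → Fin n) (j : Fin n) : cnt f j ≤ n := by
  refine (Finset.card_filter_le _ _).trans ?_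
  rw [Finset.card_univ, Fintype.card_fin]

theorem cnt_eq_one_iff {n : ℕ} (f : Fin n → Fin n) : (∀ j, cnt f j = 1) ↔ Function.Bijective f := by
  constructor
  · intro h
    refine (Fintype.bijective_iff_surjective_and_card _).2 ⟨fun j => ?_, rfl⟩
    have h1 : (Finset.univ.filter fun c => f c = j).card = 1 := h j
    have h2 : 0 < (Finset.univ.filter fun c => f c = j).card := by
      rw [h1]
      exact one_pos
    obtain ⟨c, hc⟩ := Finset.card_pos.1 h2
    exact ⟨c, (Finset.mem_filter.1 hc).2⟩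
  · intro h j
    obtain ⟨c, hc⟩ := h.2 j
    refine Finset.card_eq_one.2 ⟨c, ?_⟩
    ext c'
    simp only [Finset.mem_filter, Finset.mem_univ, true_and, Finset.mem_singleton]
    exact ⟨fun h' => h.1 (h'.trans hc.symm), fun h' => h' ▸ hc⟩

theorem sum_mono {n : ℕ} (a : Fin n → ℕ) (ha : ∀ j, a j ≤ p - 1) :
    ∑ x : Fin n → ZMod p, ∏ j, x j ^ (a j + (p - 2)) =
      if ∀ j, a j = 1 then (-1) ^ n else 0 := by
  have h1 : ∑ x : Fin n → ZMod p, ∏ j, x j ^ (a j + (p - 2)) =
      ∏ j, ∑ x : ZMod p, x ^ (a j + (p - 2)) := by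
    rw [Finset.prod_univ_sum, Fintype.piFinset_univ]
  rw [h1, Finset.prod_congr rfl fun j _ => powsum (ha j)]
  split_ifs with h
  · rw [Finset.prod_congr rfl fun j _ => if_pos (h j), Finset.prod_const, Finset.card_univ,
      Fintype.card_fin]
  · push Not at h
    obtain ⟨j, hj⟩ := h
    exact Finset.prod_eq_zero (Finset.mem_univ j) (if_neg hj)

/-- One row of the second evaluation. -/
theorem row_eval {n : ℕ} (hn : n = p - 1) (y : Fin n → ZMod p) :
    ∑ x : Fin n → ZMod p, (∑ j, x j * y j) ^ n * ∏ j, x j ^ (p - 2) =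
      (n.factorial : ZMod p) * ((-1) ^ n * ∏ j, y j) := by
  have h1 : ∀ x : Fin n → ZMod p, (∑ j, x j * y j) ^ n * ∏ j, x j ^ (p - 2) =
      ∑ f : Fin n → Fin n, (∏ k, y (f k)) * ∏ j, x j ^ (cnt f j + (p - 2)) := by
    intro x
    have h2 : (∑ j, x j * y j) ^ n = ∑ f : Fin n → Fin n, ∏ k, (x (f k) * y (f k)) := by
      have := Finset.prod_univ_sum (fun _ : Fin n => (Finset.univ : Finset (Fin n)))
        (fun _ j => x j * y j)
      rw [Fintype.piFinset_univ, Finset.prod_const, Finset.card_univ, Fintype.card_fin] at this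
      exact this
    rw [h2, Finset.sum_mul]
    refine Finset.sum_congr rfl fun f _ => ?_
    rw [Finset.prod_mul_distrib, prod_comp_cnt x f]
    simp only [pow_add, Finset.prod_mul_distrib]
    ring
  rw [Finset.sum_congr rfl fun x _ => h1 x, Finset.sum_comm]
  have h3 : ∀ f : Fin n → Fin n,
      ∑ x : Fin n → ZMod p, (∏ k, y (f k)) * ∏ j, x j ^ (cnt f j + (p - 2)) =
      if Function.Bijective f then (-1) ^ n * ∏ j, y j else 0 := by
    intro f
    rw [← Finset.mul_sum, sum_mono (cnt f) fun j => (cnt_le f j).trans hn.le]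
    by_cases hf : Function.Bijective f
    · rw [if_pos ((cnt_eq_one_iff f).2 hf), if_pos hf,
        show ∏ k, y (f k) = ∏ k, y k from Equiv.prod_comp (Equiv.ofBijective f hf) y]
      ring
    · rw [if_neg fun h => hf ((cnt_eq_one_iff f).1 h), if_neg hf, mul_zero]
  rw [Finset.sum_congr rfl fun f _ => h3 f, Finset.sum_ite, Finset.sum_const_zero, add_zero,
    Finset.sum_const, nsmul_eq_mul]
  congr 2
  have h4 : (Finset.univ.filter fun f : Fin n → Fin n => Function.Bijective f).card =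
      Fintype.card (Perm (Fin n)) := by
    rw [← Fintype.card_coe]
    refine Fintype.card_congr ?_
    exact
      { toFun := fun f => Equiv.ofBijective f.1 (Finset.mem_filter.1 f.2).2
        invFun := fun σ => ⟨σ, Finset.mem_filter.2 ⟨Finset.mem_univ _, σ.bijective⟩⟩
        left_inv := fun f => rfl
        right_inv := fun σ => by ext; rfl }
  rw [h4, Fintype.card_perm, Fintype.card_fin]

/-- The first evaluation. -/
theorem eval_one {n : ℕ} (hn : n = p - 1) :
    ∑ X : Fin n → Fin n → ZMod p, (Matrix.of X).det ^ n * ∏ i, ∏ j, X i j ^ (p - 2) =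
      (-1) ^ (n * n) * ((ATs n : ℤ) : ZMod p) := by
  have h1 : ∀ X : Fin n → Fin n → ZMod p,
      (Matrix.of X).det ^ n * ∏ i, ∏ j, X i j ^ (p - 2) =
      ∑ ρ : Fin n → Perm (Fin n), (∏ c, ((Perm.sign (ρ c) : ℤ) : ZMod p)) *
        ∏ i, ∏ j, X i j ^ (cnt (fun c => ρ c i) j + (p - 2)) := by
    intro X
    have h2 : (Matrix.of X).det ^ n = ∑ ρ : Fin n → Perm (Fin n),
        ∏ c, (((Perm.sign (ρ c) : ℤ) : ZMod p) * ∏ i, X i (ρ c i)) := by
      have := Finset.prod_univ_sum (fun _ : Fin n => (Finset.univ : Finset (Perm (Fin n))))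
        (fun _ σ => ((Perm.sign σ : ℤ) : ZMod p) * ∏ i, X i (σ i))
      rw [Fintype.piFinset_univ, Finset.prod_const, Finset.card_univ, Fintype.card_fin] at this
      rw [← this, det_rows]
      rfl
    rw [h2, Finset.sum_mul]
    refine Finset.sum_congr rfl fun ρ _ => ?_
    rw [Finset.prod_mul_distrib, Finset.prod_comm (f := fun c i => X i (ρ c i))]
    have h3 : ∀ i, ∏ c, X i (ρ c i) = ∏ j, X i j ^ cnt (fun c => ρ c i) j :=
      fun i => prod_comp_cnt (X i) fun c => ρ c i
    rw [Finset.prod_congr rfl fun i _ => h3 i]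
    simp only [pow_add, Finset.prod_mul_distrib]
    ring
  rw [Finset.sum_congr rfl fun X _ => h1 X, Finset.sum_comm]
  have h4 : ∀ ρ : Fin n → Perm (Fin n),
      ∑ X : Fin n → Fin n → ZMod p, (∏ c, ((Perm.sign (ρ c) : ℤ) : ZMod p)) *
        ∏ i, ∏ j, X i j ^ (cnt (fun c => ρ c i) j + (p - 2)) =
      if IsLat ρ then (-1) ^ (n * n) * ∏ c, ((Perm.sign (ρ c) : ℤ) : ZMod p) else 0 := by
    intro ρ
    rw [← Finset.mul_sum]
    have h5 : ∑ X : Fin n → Fin n → ZMod p,
        ∏ i, ∏ j, X i j ^ (cnt (fun c => ρ c i) j + (p - 2)) =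
        ∏ i, ∑ x : Fin n → ZMod p, ∏ j, x j ^ (cnt (fun c => ρ c i) j + (p - 2)) := by
      rw [Finset.prod_univ_sum, Fintype.piFinset_univ]
    rw [h5, Finset.prod_congr rfl fun i _ => sum_mono (cnt fun c => ρ c i)
      fun j => (cnt_le _ j).trans hn.le]
    by_cases hρ : IsLat ρ
    · rw [if_pos hρ, Finset.prod_congr rfl fun i _ => if_pos ((cnt_eq_one_iff _).2 (hρ i)),
        Finset.prod_const, Finset.card_univ, Fintype.card_fin, ← pow_mul]
      ring
    · rw [if_neg hρ]
      obtain ⟨i, hi⟩ : ∃ i, ¬ Function.Bijective fun c => ρ c i := by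
        by_contra hcon
        push Not at hcon
        exact hρ hcon
      have h6 : ∏ i, (if ∀ j, cnt (fun c => ρ c i) j = 1 then (-1 : ZMod p) ^ n else 0) = 0 :=
        Finset.prod_eq_zero (Finset.mem_univ i) (if_neg fun h => hi ((cnt_eq_one_iff _).1 h))
      rw [h6, mul_zero]
  rw [Finset.sum_congr rfl fun ρ _ => h4 ρ, ← Finset.sum_filter, ATs]
  push_cast
  rw [Finset.sum_subtype (Finset.univ.filter fun ρ : Fin n → Perm (Fin n) => IsLat ρ)
    (p := IsLat) (by simp), Finset.mul_sum]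

/-- The second evaluation. -/
theorem eval_two {n : ℕ} (hn : n = p - 1) :
    (-1) ^ n * ∑ X : Fin n → Fin n → ZMod p, (Matrix.of X).det ^ n * ∏ i, ∏ j, X i j ^ (p - 2) =
      ((n.factorial : ZMod p) * (-1) ^ n) ^ n * (-1) ^ n := by
  have h1 : ∀ X : Fin n → Fin n → ZMod p,
      (-1) ^ n * ((Matrix.of X).det ^ n * ∏ i, ∏ j, X i j ^ (p - 2)) =
      ∑ y : Fin n → ZMod p, ∏ i, ((∑ j, X i j * y j) ^ n * ∏ j, X i j ^ (p - 2)) := by
    intro X
    have := glynn (p := p) (Matrix.of X)
    rw [← hn] at this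
    rw [← mul_assoc, ← this, Finset.sum_mul]
    refine Finset.sum_congr rfl fun y _ => ?_
    rw [Finset.prod_mul_distrib]
    rfl
  rw [Finset.mul_sum, Finset.sum_congr rfl fun X _ => h1 X, Finset.sum_comm]
  have h2 : ∀ y : Fin n → ZMod p,
      ∑ X : Fin n → Fin n → ZMod p, ∏ i, ((∑ j, X i j * y j) ^ n * ∏ j, X i j ^ (p - 2)) =
      ((n.factorial : ZMod p) * ((-1) ^ n * ∏ j, y j)) ^ n := by
    intro y
    have h3 : ∑ X : Fin n → Fin n → ZMod p,
        ∏ i, ((∑ j, X i j * y j) ^ n * ∏ j, X i j ^ (p - 2)) =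
        ∏ _i : Fin n, ∑ x : Fin n → ZMod p, ((∑ j, x j * y j) ^ n * ∏ j, x j ^ (p - 2)) := by
      rw [Finset.prod_univ_sum, Fintype.piFinset_univ]
    rw [h3, Finset.prod_congr rfl fun i _ => row_eval hn y, Finset.prod_const, Finset.card_univ,
      Fintype.card_fin]
  rw [Finset.sum_congr rfl fun y _ => h2 y]
  have h4 : ∀ y : Fin n → ZMod p, ((n.factorial : ZMod p) * ((-1) ^ n * ∏ j, y j)) ^ n =
      ((n.factorial : ZMod p) * (-1) ^ n) ^ n * ∏ j, y j ^ (p - 1) := by
    intro y
    rw [← mul_assoc, mul_pow, Finset.prod_pow, ← hn]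
  rw [Finset.sum_congr rfl fun y _ => h4 y, ← Finset.mul_sum]
  have h5 : ∑ y : Fin n → ZMod p, ∏ j, y j ^ (p - 1) = ∏ _j : Fin n, ∑ x : ZMod p, x ^ (p - 1) := by
    rw [Finset.prod_univ_sum, Fintype.piFinset_univ]
  rw [h5, sum_pow_full, Finset.prod_const, Finset.card_univ, Fintype.card_fin]

theorem AT_ne_zero_mod : ((AT (p - 1) : ℤ) : ZMod p) ≠ 0 := by
  intro h0
  have h2 := hp.out.two_le
  rw [AT_eq, Int.cast_mul] at h0
  have hs : (((Perm.sign (Equiv.prodComm (Fin (p - 1)) (Fin (p - 1))) : ℤ)) : ZMod p) ≠ 0 := by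
    rcases Int.units_eq_one_or (Perm.sign (Equiv.prodComm (Fin (p - 1)) (Fin (p - 1)))) with h | h
    · rw [h]; simp
    · rw [h]; simp
  have hA : ((ATs (p - 1) : ℤ) : ZMod p) = 0 := (mul_eq_zero.1 h0).resolve_left hs
  have e1 := eval_one (p := p) (n := p - 1) rfl
  have e2 := eval_two (p := p) (n := p - 1) rfl
  rw [e1, hA, mul_zero, mul_zero] at e2
  have hf : ((p - 1).factorial : ZMod p) ≠ 0 := by
    rw [ZMod.wilsons_lemma]
    exact neg_ne_zero.2 one_ne_zero
  have hneg : ((-1 : ZMod p)) ≠ 0 := neg_ne_zero.2 one_ne_zero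
  exact mul_ne_zero (pow_ne_zero _ (mul_ne_zero hf (pow_ne_zero _ hneg))) (pow_ne_zero _ hneg)
    e2.symm

/-- The Alon-Tarsi number of order `p - 1` is not zero in a field of characteristic `0` or `p`. -/
theorem AT_ne_zero {K : Type*} [Field K] (hK : CharZero K ∨ CharP K p) :
    ((AT (p - 1) : ℤ) : K) ≠ 0 := by
  have h := AT_ne_zero_mod (p := p)
  rcases hK with hK | hK
  · rw [Int.cast_ne_zero]
    intro h0
    rw [h0] at h
    exact h (by simp)
  · intro h0
    apply h
    rw [CharP.intCast_eq_zero_iff K p] at h0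
    rw [ZMod.intCast_zmod_eq_zero_iff_dvd]
    exact h0

end Pool.Agent.H44.Kahn
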