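import Mathlib

/-!
# An Alon-Tarsi type identity for arrays of matrices
-/

set_option autoImplicit false

open Finset Matrix

namespace Pool.Agent.H44.Kahn

variable {n : ℕ} {R : Type*} [CommRing R]

/-- The signed sum over two families of permutations. -/
def expn (M : Fin n → Fin n → Matrix (Fin n) (Fin n) R) : R :=
  ∑ σ : Fin n → Equiv.Perm (Fin n), ∑ τ : Fin n → Equiv.Perm (Fin n),
    ((∏ i, ((Equiv.Perm.sign (σ i) : ℤ) : R)) * ∏ j, ((Equiv.Perm.sign (τ j) : ℤ) : R)) *
      ∏ i, ∏ j, M i j (σ i j) (τ j i)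

theorem det_rows (M : Matrix (Fin n) (Fin n) R) :
    M.det = ∑ σ : Equiv.Perm (Fin n), ((Equiv.Perm.sign σ : ℤ) : R) * ∏ j, M j (σ j) := by
  rw [← Matrix.det_transpose, Matrix.det_apply']
  rfl

theorem sel_sum (b d : Fin n → Fin n → Matrix (Fin n) (Fin n) R) :
    ∑ c : Fin n → Fin n → Fin n,
      (∏ i, (Matrix.of fun j x => b i j (c i j) x).det) *
        ∏ j, (Matrix.of fun i y => d i j (c i j) y).det =
      expn fun i j => Matrix.of fun x y => ∑ k, b i j k x * d i j k y := by
  have h1 : ∀ c : Fin n → Fin n → Fin n,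
      (∏ i, (Matrix.of fun j x => b i j (c i j) x).det) *
        ∏ j, (Matrix.of fun i y => d i j (c i j) y).det =
      ∑ σ : Fin n → Equiv.Perm (Fin n), ∑ τ : Fin n → Equiv.Perm (Fin n),
        ((∏ i, ((Equiv.Perm.sign (σ i) : ℤ) : R)) * ∏ j, ((Equiv.Perm.sign (τ j) : ℤ) : R)) *
          ∏ i, ∏ j, (b i j (c i j) (σ i j) * d i j (c i j) (τ j i)) := by
    intro c
    simp only [det_rows, Matrix.of_apply]
    rw [Finset.prod_univ_sum, Finset.prod_univ_sum, Fintype.piFinset_univ, Finset.sum_mul_sum]
    refine Finset.sum_congr rfl fun σ _ => Finset.sum_congr rfl fun τ _ => ?_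
    rw [Finset.prod_mul_distrib, Finset.prod_mul_distrib]
    have h2 : ∏ j, ∏ i, d i j (c i j) (τ j i) = ∏ i, ∏ j, d i j (c i j) (τ j i) :=
      Finset.prod_comm
    rw [h2]
    simp only [Finset.prod_mul_distrib]
    ring
  rw [Finset.sum_congr rfl fun c _ => h1 c, Finset.sum_comm]
  unfold expn
  refine Finset.sum_congr rfl fun σ _ => ?_
  rw [Finset.sum_comm]
  refine Finset.sum_congr rfl fun τ _ => ?_
  rw [← Finset.mul_sum]
  congr 1
  simp only [Matrix.of_apply]
  simp_rw [Finset.prod_univ_sum, Fintype.piFinset_univ]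

/-- The matrix with a one in the column `f a` of the row `a`. -/
def oneHot (R : Type*) [CommRing R] (f : Fin n → Fin n) : Matrix (Fin n) (Fin n) R :=
  Matrix.of fun a b => if f a = b then 1 else 0

theorem det_select_rows (T : Matrix (Fin n) (Fin n) R) (f : Fin n → Fin n) :
    (Matrix.of fun i y => T (f i) y).det = (oneHot R f).det * T.det := by
  rw [← Matrix.det_mul]
  congr 1
  ext i y
  simp [oneHot, Matrix.mul_apply]

theorem det_select_cols (S : Matrix (Fin n) (Fin n) R) (f : Fin n → Fin n) :
    (Matrix.of fun j x => S x (f j)).det = (oneHot R f).det * S.det := by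
  rw [← Matrix.det_transpose S, ← Matrix.det_mul]
  congr 1
  ext i y
  simp [oneHot, Matrix.mul_apply]

theorem expn_one : expn (fun _ _ : Fin n => (1 : Matrix (Fin n) (Fin n) R)) =
    ∑ c : Fin n → Fin n → Fin n, (∏ i, (oneHot R (c i)).det) *
      ∏ j, (oneHot R fun i => c i j).det := by
  have h := sel_sum (fun _ _ : Fin n => (1 : Matrix (Fin n) (Fin n) R)) (fun _ _ => 1)
  have h2 : (fun _ _ : Fin n => Matrix.of fun x y => ∑ k, (1 : Matrix (Fin n) (Fin n) R) k x *
      (1 : Matrix (Fin n) (Fin n) R) k y) = fun _ _ : Fin n => (1 : Matrix (Fin n) (Fin n) R) := by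
    funext i j
    ext x y
    have := congrFun (congrFun (Matrix.mul_one (1 : Matrix (Fin n) (Fin n) R)) x) y
    rw [Matrix.mul_apply] at this
    rw [Matrix.of_apply, ← this]
    refine Finset.sum_congr rfl fun k _ => ?_
    congr 1
    rw [Matrix.one_apply, Matrix.one_apply]
    simp [eq_comm]
  rw [h2] at h
  rw [← h]
  refine Finset.sum_congr rfl fun c _ => ?_
  congr 1

theorem expn_mul (S T : Fin n → Matrix (Fin n) (Fin n) R) :
    expn (fun i j => S i * T j) =
      (∏ i, (S i).det) * (∏ j, (T j).det) * expn (fun _ _ : Fin n => (1 : Matrix (Fin n) (Fin n) R)) := by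
  have h := sel_sum (fun i _ : Fin n => Matrix.of fun k x => S i x k) (fun _ j => T j)
  have h2 : (fun i j : Fin n => Matrix.of fun x y => ∑ k, (Matrix.of fun k x => S i x k) k x *
      T j k y) = fun i j : Fin n => S i * T j := by
    funext i j
    ext x y
    simp [Matrix.mul_apply]
  rw [h2] at h
  rw [← h, expn_one, Finset.mul_sum]
  refine Finset.sum_congr rfl fun c _ => ?_
  have e1 : ∀ i : Fin n, (Matrix.of fun j x => (Matrix.of fun k x => S i x k) (c i j) x).det =
      (oneHot R (c i)).det * (S i).det := fun i => det_select_cols (S i) (c i)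
  have e2 : ∀ j : Fin n, (Matrix.of fun i y => T j (c i j) y).det =
      (oneHot R fun i => c i j).det * (T j).det := fun j => det_select_rows (T j) fun i => c i j
  rw [Finset.prod_congr rfl fun i _ => e1 i, Finset.prod_congr rfl fun j _ => e2 j,
    Finset.prod_mul_distrib, Finset.prod_mul_distrib]
  ring

/-- The Alon-Tarsi number: the signed number of arrays whose rows and columns are
permutations, the sign being the product of all row signs and column signs. -/
def AT (n : ℕ) : ℤ := expn (fun _ _ : Fin n => (1 : Matrix (Fin n) (Fin n) ℤ))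

theorem cast_AT : ((AT n : ℤ) : R) = expn (fun _ _ : Fin n => (1 : Matrix (Fin n) (Fin n) R)) := by
  unfold AT expn
  push_cast
  refine Finset.sum_congr rfl fun σ _ => Finset.sum_congr rfl fun τ _ => ?_
  congr 1
  refine Finset.prod_congr rfl fun i _ => Finset.prod_congr rfl fun j _ => ?_
  rw [Matrix.one_apply, Matrix.one_apply]
  split_ifs <;> simp

/-- The main identity. -/
theorem main_ident (b d : Fin n → Fin n → Matrix (Fin n) (Fin n) R)
    (S T : Fin n → Matrix (Fin n) (Fin n) R)
    (h : ∀ i j x y, ∑ k, b i j k x * d i j k y = (S i * T j) x y) :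
    ∑ c : Fin n → Fin n → Fin n,
      (∏ i, (Matrix.of fun j x => b i j (c i j) x).det) *
        ∏ j, (Matrix.of fun i y => d i j (c i j) y).det =
      (∏ i, (S i).det) * (∏ j, (T j).det) * ((AT n : ℤ) : R) := by
  rw [sel_sum, cast_AT, ← expn_mul]
  congr 1
  funext i j
  ext x y
  exact h i j x y

end Pool.Agent.H44.Kahn
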