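import Pool.Agent.H44.Kahn.Glynn

/-!
# Transversal arrays of bases from the Alon-Tarsi number
-/

set_option autoImplicit false

open Finset Matrix

namespace Pool.Agent.H44.Kahn

variable {n : ℕ} {K : Type*} [Field K]

theorem linInd_of_det {v : Fin n → Fin n → K} (h : (Matrix.of v).det ≠ 0) :
    LinearIndependent K v := by
  have h1 : LinearIndependent K (Matrix.of v).row :=
    Matrix.linearIndependent_rows_iff_isUnit.2
      ((Matrix.isUnit_iff_isUnit_det _).2 (isUnit_iff_ne_zero.2 h))
  exact h1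

theorem det_ne_zero_of_basis (b : Module.Basis (Fin n) K (Fin n → K)) :
    (Matrix.of fun k x => b k x).det ≠ 0 := by
  have h1 : LinearIndependent K (Matrix.of fun k x => b k x).row := b.linearIndependent
  exact ((Matrix.isUnit_iff_isUnit_det _).1
    (Matrix.linearIndependent_rows_iff_isUnit.1 h1)).ne_zero

/-- If the weighted sum does not vanish there is a selection. -/
theorem exists_sel (b d : Fin n → Fin n → Matrix (Fin n) (Fin n) K)
    (S T : Fin n → Matrix (Fin n) (Fin n) K) (hS : ∀ i, (S i).det ≠ 0) (hT : ∀ j, (T j).det ≠ 0)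
    (hAT : ((AT n : ℤ) : K) ≠ 0)
    (h : ∀ i j x y, ∑ k, b i j k x * d i j k y = (S i * T j) x y) :
    ∃ c : Fin n → Fin n → Fin n, (∀ i, (Matrix.of fun j x => b i j (c i j) x).det ≠ 0) ∧
      ∀ j, (Matrix.of fun i y => d i j (c i j) y).det ≠ 0 := by
  have h1 := main_ident b d S T h
  have h2 : ∑ c : Fin n → Fin n → Fin n,
      (∏ i, (Matrix.of fun j x => b i j (c i j) x).det) *
        ∏ j, (Matrix.of fun i y => d i j (c i j) y).det ≠ 0 := by
    rw [h1]
    exact mul_ne_zero (mul_ne_zero (Finset.prod_ne_zero_iff.2 fun i _ => hS i)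
      (Finset.prod_ne_zero_iff.2 fun j _ => hT j)) hAT
  obtain ⟨c, _, hc⟩ := Finset.exists_ne_zero_of_sum_ne_zero h2
  have h3 := left_ne_zero_of_mul hc
  have h4 := right_ne_zero_of_mul hc
  exact ⟨c, fun i => Finset.prod_ne_zero_iff.1 h3 i (Finset.mem_univ i),
    fun j => Finset.prod_ne_zero_iff.1 h4 j (Finset.mem_univ j)⟩

/-- Bases orthogonal for the forms `x, y ↦ xᵀ H_j G_i θ(y)`. -/
theorem orth_version (hAT : ((AT n : ℤ) : K) ≠ 0)
    (B : Fin n → Fin n → Module.Basis (Fin n) K (Fin n → K)) (θ : K →+* K)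
    (G H : Fin n → Matrix (Fin n) (Fin n) K) (hG : ∀ i, IsUnit (G i)) (hH : ∀ j, IsUnit (H j))
    (horth : ∀ i j k l, k ≠ l →
      (B i j k ᵥ* (H j * G i)) ⬝ᵥ (fun x => θ (B i j l x)) = 0) :
    ∃ σ : Fin n → Fin n → Fin n,
      (∀ i, LinearIndependent K fun j => B i j (σ i j)) ∧
      ∀ j, LinearIndependent K fun i => B i j (σ i j) := by
  have hG' : ∀ i, (G i).det ≠ 0 := fun i => ((Matrix.isUnit_iff_isUnit_det _).1 (hG i)).ne_zero
  have hH' : ∀ j, (H j).det ≠ 0 := fun j => ((Matrix.isUnit_iff_isUnit_det _).1 (hH j)).ne_zero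
  -- the matrix of the basis, and its image under `θ`
  let P : Fin n → Fin n → Matrix (Fin n) (Fin n) K := fun i j => Matrix.of fun k x => B i j k x
  have hP : ∀ i j, (P i j).det ≠ 0 := fun i j => det_ne_zero_of_basis (B i j)
  let Q : Fin n → Fin n → Matrix (Fin n) (Fin n) K := fun i j => θ.mapMatrix (P i j)
  have hQ : ∀ i j, (Q i j).det ≠ 0 := by
    intro i j h
    have h1 : (Q i j).det = θ (P i j).det := (RingHom.map_det θ (P i j)).symm
    rw [h1] at h
    exact hP i j ((map_eq_zero θ).1 h)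
  let D : Fin n → Fin n → Fin n → K := fun i j k =>
    (B i j k ᵥ* (H j * G i)) ⬝ᵥ (fun x => θ (B i j k x))
  have hD : ∀ i j, P i j * (H j * G i) * (Q i j)ᵀ = Matrix.diagonal (D i j) := by
    intro i j
    ext k l
    have h1 : (P i j * (H j * G i) * (Q i j)ᵀ) k l =
        (B i j k ᵥ* (H j * G i)) ⬝ᵥ (fun x => θ (B i j l x)) := by
      rw [Matrix.mul_apply]
      rfl
    rw [h1]
    by_cases hkl : k = l
    · subst hkl
      rw [Matrix.diagonal_apply_eq]
    · rw [horth i j k l hkl, Matrix.diagonal_apply_ne _ hkl]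
  have hD0 : ∀ i j k, D i j k ≠ 0 := by
    intro i j k hk
    have h1 : (Matrix.diagonal (D i j)).det ≠ 0 := by
      rw [← hD i j, Matrix.det_mul, Matrix.det_mul, Matrix.det_mul, Matrix.det_transpose]
      exact mul_ne_zero (mul_ne_zero (hP i j) (mul_ne_zero (hH' j) (hG' i))) (hQ i j)
    rw [Matrix.det_diagonal] at h1
    exact h1 (Finset.prod_eq_zero (Finset.mem_univ k) hk)
  -- the inverse of the Gram matrix
  have hinv : ∀ i j, (Q i j)ᵀ * (Matrix.diagonal (fun k => (D i j k)⁻¹) * P i j) =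
      (G i)⁻¹ * (H j)⁻¹ := by
    intro i j
    have h1 : Matrix.diagonal (fun k => (D i j k)⁻¹) * (P i j * (H j * G i) * (Q i j)ᵀ) = 1 := by
      rw [hD, Matrix.diagonal_mul_diagonal]
      have : (fun k => (D i j k)⁻¹ * D i j k) = fun _ => (1 : K) := by
        funext k
        exact inv_mul_cancel₀ (hD0 i j k)
      rw [this, Matrix.diagonal_one]
    have h2 : (Matrix.diagonal (fun k => (D i j k)⁻¹) * P i j * (H j * G i)) * (Q i j)ᵀ = 1 := by
      rw [← h1]
      simp only [Matrix.mul_assoc]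
    have h3 : (Q i j)ᵀ * (Matrix.diagonal (fun k => (D i j k)⁻¹) * P i j * (H j * G i)) = 1 :=
      mul_eq_one_comm.1 h2
    have h4 : ((Q i j)ᵀ * (Matrix.diagonal (fun k => (D i j k)⁻¹) * P i j)) * (H j * G i) = 1 := by
      rw [← h3]
      simp only [Matrix.mul_assoc]
    have h5 := Matrix.inv_eq_left_inv h4
    rw [← h5, Matrix.mul_inv_rev]
  obtain ⟨c, hc1, hc2⟩ := exists_sel (fun i j => Q i j)
    (fun i j => Matrix.diagonal (fun k => (D i j k)⁻¹) * P i j) (fun i => (G i)⁻¹)
    (fun j => (H j)⁻¹)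
    (fun i => by
      rw [Matrix.det_nonsing_inv, Ring.inverse_eq_inv']
      exact inv_ne_zero (hG' i))
    (fun j => by
      rw [Matrix.det_nonsing_inv, Ring.inverse_eq_inv']
      exact inv_ne_zero (hH' j)) hAT
    (fun i j x y => by
      rw [← hinv i j, Matrix.mul_apply]
      rfl)
  refine ⟨c, fun i => linInd_of_det fun h0 => hc1 i ?_, fun j => linInd_of_det fun h0 => hc2 j ?_⟩
  · have h1 : (Matrix.of fun j x => Q i j (c i j) x) =
        θ.mapMatrix (Matrix.of fun j => B i j (c i j)) := by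
      ext j x
      rfl
    rw [h1, ← RingHom.map_det, h0, map_zero]
  · have h1 : (Matrix.of fun i y =>
        (Matrix.diagonal (fun k => (D i j k)⁻¹) * P i j) (c i j) y) =
        Matrix.diagonal (fun i => (D i j (c i j))⁻¹) * Matrix.of fun i => B i j (c i j) := by
      ext i y
      rw [Matrix.of_apply, Matrix.diagonal_mul, Matrix.diagonal_mul]
      rfl
    rw [h1, Matrix.det_mul, h0, mul_zero]

/-- Arbitrary bases: rows of basis vectors, columns of vectors of the dual bases. -/
theorem dual_version (hAT : ((AT n : ℤ) : K) ≠ 0)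
    (B : Fin n → Fin n → Module.Basis (Fin n) K (Fin n → K)) :
    ∃ σ : Fin n → Fin n → Fin n,
      (∀ i, LinearIndependent K fun j => B i j (σ i j)) ∧
      ∀ j, LinearIndependent K fun i => (B i j).coord (σ i j) := by
  obtain ⟨c, hc1, hc2⟩ := exists_sel (K := K) (fun i j => Matrix.of fun k x => B i j k x)
    (fun i j => Matrix.of fun k y => (B i j).coord k (Pi.single y 1)) (fun _ => 1) (fun _ => 1)
    (fun i => by rw [Matrix.det_one]; exact one_ne_zero)
    (fun i => by rw [Matrix.det_one]; exact one_ne_zero) hAT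
    (fun i j x y => by
      have h1 := (B i j).sum_repr (Pi.single y 1 : Fin n → K)
      have h2 := congrFun h1 x
      rw [Finset.sum_apply] at h2
      rw [Matrix.mul_one, Matrix.one_apply]
      simp only [Matrix.of_apply, Module.Basis.coord_apply]
      simp only [Pi.smul_apply, smul_eq_mul] at h2
      rw [Finset.sum_congr rfl fun k _ => mul_comm _ _, h2, Pi.single_apply])
  refine ⟨c, fun i => linInd_of_det (hc1 i), fun j => ?_⟩
  have h1 : LinearIndependent K fun i => fun y => (B i j).coord (c i j) (Pi.single y 1) :=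
    linInd_of_det (hc2 j)
  let L : Module.Dual K (Fin n → K) →ₗ[K] (Fin n → K) :=
    { toFun := fun f y => f (Pi.single y 1)
      map_add' := fun f g => rfl
      map_smul' := fun r f => rfl }
  exact LinearIndependent.of_comp L h1

end Pool.Agent.H44.Kahn
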