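import Pool.Agent.H44.Kahn.Ident

/-!
# Row, column and symbol signs of Latin squares
-/

set_option autoImplicit false

open Finset Matrix Equiv

namespace Pool.Agent.H44.Kahn

variable {n : ℕ}

/-- The families of permutations that are the rows of a Latin square. -/
def IsLat (σ : Fin n → Perm (Fin n)) : Prop := ∀ j, Function.Bijective fun i => σ i j

instance (σ : Fin n → Perm (Fin n)) : Decidable (IsLat σ) := by
  unfold IsLat
  infer_instance

/-- The Latin squares. -/
abbrev Lat (n : ℕ) := {σ : Fin n → Perm (Fin n) // IsLat σ}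

/-- The columns of a Latin square. -/
noncomputable def transp (σ : Lat n) : Lat n :=
  ⟨fun j => Equiv.ofBijective (fun i => σ.1 i j) (σ.2 j), fun i => (σ.1 i).bijective⟩

theorem transp_apply (σ : Lat n) (i j : Fin n) : (transp σ).1 j i = σ.1 i j := rfl

theorem isLat_inv (σ : Lat n) : IsLat fun i => (σ.1 i)⁻¹ := by
  intro c
  refine (Fintype.bijective_iff_injective_and_card _).2 ⟨fun i i' h => ?_, rfl⟩
  have h' : (σ.1 i)⁻¹ c = (σ.1 i')⁻¹ c := h
  have h1 : σ.1 i ((σ.1 i)⁻¹ c) = c := (σ.1 _).apply_symm_apply _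
  have h2 : σ.1 i' ((σ.1 i)⁻¹ c) = c := by rw [h']; exact (σ.1 _).apply_symm_apply _
  exact (σ.2 ((σ.1 i)⁻¹ c)).1 (h1.trans h2.symm)

/-- The Latin square with the inverse rows. -/
def invs (σ : Lat n) : Lat n := ⟨fun i => (σ.1 i)⁻¹, isLat_inv σ⟩

theorem transp_transp (σ : Lat n) : transp (transp σ) = σ := by
  apply Subtype.ext
  funext i
  ext j
  rfl

theorem invs_invs (σ : Lat n) : invs (invs σ) = σ := by
  apply Subtype.ext
  funext i
  exact inv_inv _

theorem sign_rel (σ : Lat n) :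
    (∏ j, Perm.sign ((transp σ).1 j)) =
      Perm.sign (Equiv.prodComm (Fin n) (Fin n)) *
        ((∏ c, Perm.sign ((transp (invs σ)).1 c)) * ∏ i, Perm.sign (σ.1 i)) := by
  rw [← Perm.sign_prodCongrLeft, ← Perm.sign_prodCongrLeft, ← Perm.sign_prodCongrRight,
    ← Perm.sign_mul, ← Perm.sign_mul]
  congr 1
  ext ⟨i, j⟩ : 1
  have h1 : (transp (invs σ)).1 (σ.1 i j) i = j := by
    rw [transp_apply]
    exact (σ.1 i).symm_apply_apply j
  simp only [Perm.mul_apply, Equiv.prodCongrLeft_apply, Equiv.prodCongrRight_apply,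
    Equiv.prodComm_apply, Prod.swap_prod_mk, h1, transp_apply]

theorem AT_eq_sum_lat : AT n = ∑ σ : Lat n,
    (∏ i, ((Perm.sign (σ.1 i) : ℤ))) * ∏ j, ((Perm.sign ((transp σ).1 j) : ℤ)) := by
  have h0 : ∀ σ τ : Fin n → Perm (Fin n),
      ∏ i, ∏ j, (1 : Matrix (Fin n) (Fin n) ℤ) (σ i j) (τ j i) =
        if ∀ i j, σ i j = τ j i then 1 else 0 := by
    intro σ τ
    split_ifs with h
    · refine Finset.prod_eq_one fun i _ => Finset.prod_eq_one fun j _ => ?_
      rw [h i j, Matrix.one_apply_eq]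
    · push Not at h
      obtain ⟨i, j, hij⟩ := h
      refine Finset.prod_eq_zero (Finset.mem_univ i) (Finset.prod_eq_zero (Finset.mem_univ j) ?_)
      rw [Matrix.one_apply_ne hij]
  have h1 : ∀ σ : Fin n → Perm (Fin n), (∑ τ : Fin n → Perm (Fin n),
      ((∏ i, ((Perm.sign (σ i) : ℤ))) * ∏ j, ((Perm.sign (τ j) : ℤ))) *
        ∏ i, ∏ j, (1 : Matrix (Fin n) (Fin n) ℤ) (σ i j) (τ j i)) =
      if h : IsLat σ then (∏ i, ((Perm.sign (σ i) : ℤ))) *
        ∏ j, ((Perm.sign ((transp ⟨σ, h⟩).1 j) : ℤ)) else 0 := by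
    intro σ
    split_ifs with h
    · rw [Finset.sum_eq_single (transp ⟨σ, h⟩).1]
      · have hp : ∀ i j, σ i j = (transp ⟨σ, h⟩).1 j i := fun i j => rfl
        rw [h0, if_pos hp, mul_one]
      · intro τ _ hτ
        rw [h0, if_neg, mul_zero]
        intro hall
        apply hτ
        funext j
        ext i
        rw [← hall i j]
        rfl
      · intro hcon
        exact absurd (Finset.mem_univ _) hcon
    · refine Finset.sum_eq_zero fun τ _ => ?_
      rw [h0, if_neg, mul_zero]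
      intro hall
      apply h
      intro j
      have : (fun i => σ i j) = τ j := by
        funext i
        exact hall i j
      rw [this]
      exact (τ j).bijective
  unfold AT expn
  simp only [Int.cast_id]
  rw [Finset.sum_congr rfl fun σ _ => h1 σ]
  have h2 : ∑ σ : Fin n → Perm (Fin n), (if h : IsLat σ then (∏ i, ((Perm.sign (σ i) : ℤ))) *
        ∏ j, ((Perm.sign ((transp ⟨σ, h⟩).1 j) : ℤ)) else 0) =
      ∑ σ ∈ Finset.univ.filter (fun σ : Fin n → Perm (Fin n) => IsLat σ),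
        (if h : IsLat σ then (∏ i, ((Perm.sign (σ i) : ℤ))) *
        ∏ j, ((Perm.sign ((transp ⟨σ, h⟩).1 j) : ℤ)) else 0) := by
    symm
    refine Finset.sum_filter_of_ne fun σ _ hne => ?_
    by_contra hcon
    exact hne (dif_neg hcon)
  rw [h2, Finset.sum_subtype (Finset.univ.filter fun σ : Fin n → Perm (Fin n) => IsLat σ)
    (p := IsLat) (by simp)]
  refine Finset.sum_congr rfl fun σ _ => ?_
  rw [dif_pos σ.2]

/-- The signed number of Latin squares, with the symbol signs. -/
def ATs (n : ℕ) : ℤ := ∑ ρ : Lat n, ∏ c, ((Perm.sign (ρ.1 c) : ℤ))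

theorem AT_eq (n : ℕ) : AT n = (Perm.sign (Equiv.prodComm (Fin n) (Fin n)) : ℤ) * ATs n := by
  rw [AT_eq_sum_lat, ATs, Finset.mul_sum]
  let e' : Lat n ≃ Lat n :=
    { toFun := fun σ => transp (invs σ)
      invFun := fun σ => invs (transp σ)
      left_inv := fun σ => by simp only [transp_transp, invs_invs]
      right_inv := fun σ => by simp only [transp_transp, invs_invs] }
  rw [← Equiv.sum_comp e' fun ρ => (Perm.sign (Equiv.prodComm (Fin n) (Fin n)) : ℤ) *
    ∏ c, ((Perm.sign (ρ.1 c) : ℤ))]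
  refine Finset.sum_congr rfl fun σ _ => ?_
  have h := congrArg (fun u : ℤˣ => (u : ℤ)) (sign_rel σ)
  simp only [Units.val_mul, Units.coe_prod] at h
  have h3 : (∏ i, ((Perm.sign (σ.1 i) : ℤ))) * (∏ i, ((Perm.sign (σ.1 i) : ℤ))) = 1 := by
    rw [← Finset.prod_mul_distrib]
    refine Finset.prod_eq_one fun i _ => ?_
    rw [← Units.val_mul, Int.units_mul_self, Units.val_one]
  rw [h]
  show _ = (Perm.sign (Equiv.prodComm (Fin n) (Fin n)) : ℤ) *
    ∏ c, ((Perm.sign ((transp (invs σ)).1 c) : ℤ))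
  linear_combination ((Perm.sign (Equiv.prodComm (Fin n) (Fin n)) : ℤ) *
    ∏ c, ((Perm.sign ((transp (invs σ)).1 c) : ℤ))) * h3

end Pool.Agent.H44.Kahn
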